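import Pool.Agent.helper64.OT.SpecI

/-!
# Row ol:P3H (MP_f6e9a2_nt): the light part, second moment over a host `H`
-/

set_option autoImplicit false

namespace Pool.Agent.OL

open Finset Pool.Agent.OT Pool.Agent.SPI Pool.Agent.helper85.PG
open scoped Pointwise

theorem P3H_sum {α : Type} [Fintype α] [DecidableEq α] (f : α → α → ℝ) :
    ∑ c : α, ∑ c' ∈ univ.filter (fun c' : α => c ≠ c'), f c c' =
      ∑ z ∈ (univ : Finset (α × α)).filter (fun z => z.1 ≠ z.2), f z.1 z.2 := by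
  rw [Finset.sum_filter, Fintype.sum_prod_type]
  exact Finset.sum_congr rfl fun c _ => Finset.sum_filter _ _

theorem P3H_num (A4 M2 M1 S X h b E Q g : ℝ) (hh : 0 < h) (hb : 0 ≤ b) (hE : 0 ≤ E) (hQ : 0 ≤ Q)
    (hA' : A4 ≤ Q) (hM2 : 0 ≤ M2) (hM2' : M2 ≤ h * E)
    (hM1 : 0 ≤ M1) (hM1' : M1 ≤ h * b ^ 2) (hS : S ^ 4 ≤ A4 * M2 * M1 ^ 2)
    (hX : X ≤ g * b + 1 / h * S) : X ≤ g * b + b * (E / h * Q) ^ (1 / 4 : ℝ) := by
  set Y : ℝ := (E / h * Q) ^ (1 / 4 : ℝ) with hY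
  have hpos : 0 ≤ E / h * Q := by positivity
  have hY0 : 0 ≤ Y := Real.rpow_nonneg hpos _
  have hY4 : Y ^ 4 = E / h * Q := by
    rw [hY, ← Real.rpow_natCast, ← Real.rpow_mul hpos]
    norm_num
  have h2 : S ^ 4 ≤ Q * (h * E) * (h * b ^ 2) ^ 2 := by
    refine hS.trans ?_
    have h4 : A4 * M2 ≤ Q * (h * E) := mul_le_mul hA' hM2' hM2 hQ
    have h5 : M1 ^ 2 ≤ (h * b ^ 2) ^ 2 := pow_le_pow_left₀ hM1 hM1' 2
    exact mul_le_mul h4 h5 (by positivity) (by positivity)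
  have h3 : Q * (h * E) * (h * b ^ 2) ^ 2 = (h * b * Y) ^ 4 := by
    rw [mul_pow (h * b) Y 4, hY4]
    field_simp
  have h5 : S ≤ h * b * Y := by
    by_contra hlt
    push Not at hlt
    have h6 : 0 ≤ h * b * Y := by positivity
    exact absurd (h2.trans h3.le) (not_le.2 (pow_lt_pow_left₀ hlt h6 (by norm_num)))
  have h6 : 1 / h * S ≤ b * Y := by
    have h7 : 1 / h * S ≤ 1 / h * (h * b * Y) := mul_le_mul_of_nonneg_left h5 (by positivity)
    have h8 : 1 / h * (h * b * Y) = b * Y := by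
      field_simp
    linarith
  linarith

theorem P3H (hM4H : M4H_stmt) (hPCH : PCH_stmt) (hPC2 : PC2_stmt) (hPC3 : PC3_stmt) : P3H_stmt := by
  classical
  intro p hp χ h H G B β hχ hh hhp hHG hβ
  have hX := hPCH p χ h H G B β hh hHG hβ
  have hA := hM4H p χ G hχ
  obtain ⟨hM1, hM2⟩ := hPC2 p h B hh hhp
  rw [P3H_sum (fun c c' => ‖TG χ G (some c) (some c')‖ * (mm h B c c' : ℝ))] at hX
  rw [P3H_sum (fun c c' => ‖TG χ G (some c) (some c')‖ ^ 4)] at hA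
  have hC := hPC3 (ZMod p × ZMod p) ((univ : Finset (ZMod p × ZMod p)).filter (fun z => z.1 ≠ z.2))
    (fun z => ‖TG χ G (some z.1) (some z.2)‖) (fun z => (mm h B z.1 z.2 : ℝ)) (fun _ _ => norm_nonneg _)
    (fun _ _ => Nat.cast_nonneg _)
  have hh' : (0 : ℝ) < h := by exact_mod_cast hh
  have hM1' : ∑ z ∈ (univ : Finset (ZMod p × ZMod p)).filter (fun z => z.1 ≠ z.2), (mm h B z.1 z.2 : ℝ) ≤ h * (B.card : ℝ) ^ 2 := by
    refine le_trans ?_ hM1
    rw [← Fintype.sum_prod_type']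
    exact Finset.sum_le_sum_of_subset_of_nonneg (Finset.filter_subset _ _) (fun _ _ _ => Nat.cast_nonneg _)
  have hM2' : ∑ z ∈ (univ : Finset (ZMod p × ZMod p)).filter (fun z => z.1 ≠ z.2), (mm h B z.1 z.2 : ℝ) ^ 2 ≤ h * (EN h B : ℝ) := by
    refine le_trans ?_ hM2
    rw [← Fintype.sum_prod_type' (fun c c' => (mm h B c c' : ℝ) ^ 2)]
    exact Finset.sum_le_sum_of_subset_of_nonneg (Finset.filter_subset _ _) (fun _ _ _ => by positivity)
  exact P3H_num _ _ _ _ _ h B.card (EN h B) _ (G.card : ℝ) hh' (Nat.cast_nonneg _)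
    (Nat.cast_nonneg _) (by positivity) hA (Finset.sum_nonneg fun _ _ => by positivity) hM2'
    (Finset.sum_nonneg fun _ _ => Nat.cast_nonneg _) hM1' hC hX

end Pool.Agent.OL
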